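import Mathlib
import Pool.Agent.MSup.Round

/-!
Maximally superintegrable metrics on spheres invariant under `O(a) × O(b)`, `a, b ≥ 2`, are round.
-/

set_option autoImplicit false

open Set
open scoped ContDiff

namespace Pool.Agent.Results.MP_337148_gt.BlockInvariant

open Pool.Agent.MSup

/-- Let `a, b ≥ 2`, let `n = a + b - 1 ≥ 3` and let `g` be the Riemannian metric on the unit
sphere `S^n` of `ℝ^a × ℝ^b` with dual norm
`2H(x, p) = P(|y|²) |η|² + Q(|y|²) |ζ|² + S(|y|²) (y·η)²`, `x = (y, z)`, `p = (η, ζ)`,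
`y·η + z·ζ = 0`, where `P, Q, S` are smooth and the metric is positive definite.  If the geodesic
flow of `g` is maximally superintegrable in the polynomial class, then `g` is isometric to a round
sphere. -/
theorem result {a b : ℕ} (ha : 2 ≤ a) (hb : 2 ≤ b) (P Q S : ℝ → ℝ)
    (smoothP : ContDiff ℝ ∞ P) (smoothQ : ContDiff ℝ ∞ Q) (smoothS : ContDiff ℝ ∞ S)
    (posP : ∀ t ∈ Icc (0 : ℝ) 1, 0 < P t) (posQ : ∀ t ∈ Icc (0 : ℝ) 1, 0 < Q t)
    (posW : ∀ t ∈ Icc (0 : ℝ) 1, 0 < (1 - t) * P t + t * Q t + t * (1 - t) * S t)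
    (h : MaxSuperintegrable (ι := Fin a ⊕ Fin b) (blockHam P Q S)) :
    IsRoundSphere (ι := Fin a ⊕ Fin b) (blockHam P Q S) :=
  round_of_superintegrable ⟨smoothP, smoothQ, smoothS, posP, posQ, posW⟩ ha hb h

end Pool.Agent.Results.MP_337148_gt.BlockInvariant
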