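import Mathlib
import Pool.Agent.TOS.Main

/-!
Maximally superintegrable metrics on the three-sphere with a two-dimensional torus of isometries
are round.
-/

set_option autoImplicit false

open Set
open scoped ContDiff

namespace Pool.Agent.Results.MP_337148_gt.ToricThreeSphere

open Pool.Agent.MSup (TS MaxSuperintegrable IsRoundSphere)
open Pool.Agent.TOA (I4 quadHam TorusInvariant)

/-- Let `g` be the smooth Riemannian metric on the unit sphere `S³` of `ℝ² × ℝ²` with Hamiltonian
`H(x, π) = ½ Σ h_ij(x) π_i π_j` (half the square of the dual norm of the covector `π`, `x · π = 0`),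
and suppose that it is invariant under the two-dimensional torus of the rotations of the two
planes.  If the geodesic flow of `g` is maximally superintegrable in the polynomial class, then `g`
is isometric to a round sphere. -/
theorem result (h : I4 → I4 → (I4 → ℝ) → ℝ) (smooth : ∀ i j, ContDiff ℝ ∞ (h i j))
    (pos : ∀ z ∈ TS I4, z.2 ≠ 0 → 0 < quadHam h z) (inv : TorusInvariant (quadHam h))
    (superintegrable : MaxSuperintegrable (quadHam h)) : IsRoundSphere (quadHam h) :=
  Pool.Agent.TOA.torus_round ⟨smooth, pos, inv⟩ superintegrable

end Pool.Agent.Results.MP_337148_gt.ToricThreeSphere
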