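import Mathlib
import Pool.Agent.USQ.Main

/-!
Maximally superintegrable metrics on `S^(2p+2q-1)`, `p, q ≥ 2`, invariant under `U(p) × U(q)` are
round.
-/

set_option autoImplicit false

open Set
open scoped ContDiff

namespace Pool.Agent.Results.MP_337148_gt.UnitaryJoin

open Pool.Agent.MSup (ip TS MaxSuperintegrable IsRoundSphere)
open Pool.Agent.USQ (Co uuHam)

/-- Let `a, b ≥ 3`, let `J₁, J₂` be linear maps of `ℝ^a, ℝ^b` with `Jx · y = -x · Jy` and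
`J² = -1` (so `a = 2p ≥ 4`, `b = 2q ≥ 4`), and let `g` be the Riemannian metric on the unit sphere
`S^(a+b-1)` of `ℝ^a × ℝ^b` with dual norm
`2H(x, p) = P|η|² + Q|ζ|² + R(y·η)² + Aκ₁² + 2Bκ₁κ₂ + Cκ₂² + 2(y·η)(Dκ₁ + Eκ₂)`,
`x = (y, z)`, `p = (η, ζ)`, `y·η + z·ζ = 0`, `κ₁ = J₁y·η`, `κ₂ = J₂z·ζ`, where `P, Q, R, A, B, C, D, E`
are smooth functions of `|y|²` and the metric is positive definite. If the geodesic flow of `g` is
maximally superintegrable in the polynomial class, then `g` is isometric to a round sphere. -/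
theorem result {a b : ℕ} (ha : 3 ≤ a) (hb : 3 ≤ b)
    (J₁ : (Fin a → ℝ) →ₗ[ℝ] (Fin a → ℝ)) (J₂ : (Fin b → ℝ) →ₗ[ℝ] (Fin b → ℝ))
    (skew₁ : ∀ x y, ip (J₁ x) y = -ip x (J₁ y)) (sq₁ : ∀ x, J₁ (J₁ x) = -x)
    (skew₂ : ∀ x y, ip (J₂ x) y = -ip x (J₂ y)) (sq₂ : ∀ x, J₂ (J₂ x) = -x)
    (c : Co) (smooth : c.Smooth)
    (pos : ∀ z ∈ TS (Fin a ⊕ Fin b), z.2 ≠ 0 → 0 < uuHam J₁ J₂ c z)
    (superintegrable : MaxSuperintegrable (uuHam J₁ J₂ c)) :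
    IsRoundSphere (uuHam J₁ J₂ c) :=
  Pool.Agent.USQ.main ha hb J₁ J₂ skew₁ sq₁ skew₂ sq₂ c smooth pos superintegrable

end Pool.Agent.Results.MP_337148_gt.UnitaryJoin
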