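import Mathlib
import Pool.Agent.USP.Main

/-!
Maximally superintegrable metrics on `S^(2m)` invariant under `U(m)` are conformally flat.
-/

set_option autoImplicit false

open Set
open scoped ContDiff

namespace Pool.Agent.Results.MP_337148_gt.UnitarySuspension

open Pool.Agent.MSup (ip TS MaxSuperintegrable)
open Pool.Agent.USP (usHam ConfFlat)

/-- Let `J` be a linear map of `ℝ^β` with `Jx · y = -x · Jy` and `J² = -1`, where `β` is a finite
set with at least three elements (so `|β| = 2m ≥ 4`), and let `g` be the Riemannian metric on the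
unit sphere `S^(2m)` of `ℝ × ℝ^β` with dual norm
`2H(x, p) = P(t) |ζ|² + Q(t) τ² + S(t) κ² + 2 W(t) τ κ`, `x = (t, z)`, `p = (τ, ζ)`,
`t τ + z·ζ = 0`, `κ = Jz·ζ`, where `P, Q, S, W` are smooth and the metric is positive definite.
If the geodesic flow of `g` is maximally superintegrable in the polynomial class, then
`S (P t² + Q (1 - t²)) = W² (1 - t²)` on `[-1, 1]` and `g` is conformally flat. -/
theorem result {β : Type} [Fintype β] [DecidableEq β] (J : (β → ℝ) →ₗ[ℝ] (β → ℝ))
    (skew : ∀ x y, ip (J x) y = -ip x (J y)) (sq : ∀ x, J (J x) = -x)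
    (card : 3 ≤ Fintype.card β) (P Q S W : ℝ → ℝ)
    (smoothP : ContDiff ℝ ∞ P) (smoothQ : ContDiff ℝ ∞ Q) (smoothS : ContDiff ℝ ∞ S)
    (smoothW : ContDiff ℝ ∞ W)
    (pos : ∀ z ∈ TS (Option β), z.2 ≠ 0 → 0 < usHam J P Q S W z)
    (superintegrable : MaxSuperintegrable (usHam J P Q S W)) :
    (∀ t ∈ Icc (-1 : ℝ) 1, S t * (P t * t ^ 2 + Q t * (1 - t ^ 2)) = W t ^ 2 * (1 - t ^ 2)) ∧
      ConfFlat (usHam J P Q S W) :=
  Pool.Agent.USP.main J skew sq card P Q S W smoothP smoothQ smoothS smoothW pos superintegrable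

end Pool.Agent.Results.MP_337148_gt.UnitarySuspension
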